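import Mathlib

/-!
Totally skew embeddings of orientable surfaces in `ℝ⁷`.

With `ℝ³ = ℂ × ℝ`, the map `Ψ(c, t) = (c, c², t, t c + i |c|² c) ∈ ℂ × ℂ × ℝ × ℂ = ℝ⁷` restricts to
a totally skew embedding of every surface `{t² = F(c)}`, in particular of every closed orientable
surface (the double of a disc with `g` holes). If `α (Ψ(x) - Ψ(y)) + dΨ(v) - dΨ(w) = 0` with
different `c`-coordinates and `δ = c(x) - c(y)`, the components `c` and `c²` give
`dc(v) = -dc(w) = -α δ / 2`, and the last two components then give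
`dt(v) + dt(w) = i α |δ|²`; the left side is real, the right side imaginary, so `α = 0`.
-/

namespace Pool.Agent.Results.MP_794fdb_gt.OrientableSurfaces

open scoped Manifold ContDiff
open Set Topology Module

noncomputable section

/-- The Euclidean space `ℝⁿ`. -/
abbrev Eu (n : ℕ) := EuclideanSpace ℝ (Fin n)

section defs

variable {E H M V : Type*} [NormedAddCommGroup E] [NormedSpace ℝ E] [TopologicalSpace H]
  (I : ModelWithCorners ℝ E H) [TopologicalSpace M] [ChartedSpace H M]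
  [NormedAddCommGroup V] [NormedSpace ℝ V]

/-- Two affine subspaces are skew: they are disjoint and their direction spaces meet only
in `0`. -/
def Skew (A B : AffineSubspace ℝ V) : Prop :=
  Disjoint (A : Set V) (B : Set V) ∧ Disjoint A.direction B.direction

/-- The image `dφ(T_x M)`, for a map `φ` of `M` into a normed space. -/
def tangentImage (φ : M → V) (x : M) : Submodule ℝ V :=
  LinearMap.range (mfderiv I 𝓘(ℝ, V) φ x).toLinearMap

/-- The affine tangent space `φ(x) + dφ(T_x M)`. -/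
def affineTangent (φ : M → V) (x : M) : AffineSubspace ℝ V :=
  AffineSubspace.mk' (φ x) (tangentImage I φ x)

/-- `φ` is a smooth embedding: a `C^∞` map with injective differential at every point
which is a homeomorphism onto its image. -/
structure IsSmoothEmbedding (φ : M → V) : Prop where
  smooth : ContMDiff I 𝓘(ℝ, V) ∞ φ
  immersion : ∀ x, Function.Injective (mfderiv I 𝓘(ℝ, V) φ x)
  embedding : IsEmbedding φ

/-- `φ` is a totally skew embedding: a smooth embedding such that the affine tangent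
spaces at `x` and `y` are skew whenever `φ(x) ≠ φ(y)`. -/
structure IsTotallySkewEmbedding (φ : M → V) : Prop extends IsSmoothEmbedding I φ where
  skew : ∀ x y, φ x ≠ φ y → Skew (affineTangent I φ x) (affineTangent I φ y)

/-- `M` has a totally skew embedding into `ℝᴺ`. -/
def HasTotallySkewEmbedding (M : Type*) [TopologicalSpace M] [ChartedSpace H M] (N : ℕ) : Prop :=
  ∃ φ : M → Eu N, IsTotallySkewEmbedding I φ

/-- The vertical vector of `ℝ³` is not tangent to `ι(M)` at any point of `M` that has another point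
of `M` on its vertical line. -/
def VerticalCondition (ι : M → Eu 3) : Prop :=
  ∀ x y : M, x ≠ y → ι x 0 = ι y 0 → ι x 1 = ι y 1 → !₂[(0 : ℝ), 0, 1] ∉ tangentImage I ι x

end defs

/-- The function `t² - F(x, y)`. -/
def surfFun (F : Eu 2 → ℝ) (p : Eu 3) : ℝ := p 2 ^ 2 - F !₂[p 0, p 1]

/-- The image of `ι : M → ℝ³` lies in a set `{t² = F(x, y)}`, `F` differentiable. -/
def InDouble {M : Type*} (ι : M → Eu 3) : Prop :=
  ∃ F : Eu 2 → ℝ, Differentiable ℝ F ∧ ∀ x, surfFun F (ι x) = 0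

lemma key (c1 c2 a1 a2 : ℂ) (e1 e2 b1 b2 α : ℝ)
    (h1 : (α : ℂ) * (c1 - c2) + (a1 - a2) = 0)
    (h2 : (α : ℂ) * (c1 ^ 2 - c2 ^ 2) + (2 * c1 * a1 - 2 * c2 * a2) = 0)
    (h3 : α * (e1 - e2) + (b1 - b2) = 0)
    (h4 : (α : ℂ) * ((e1 * c1 + Complex.I * (c1 ^ 2 * star c1)) -
        (e2 * c2 + Complex.I * (c2 ^ 2 * star c2))) +
      ((b1 * c1 + e1 * a1 + Complex.I * (2 * c1 * a1 * star c1 + c1 ^ 2 * star a1)) -
      (b2 * c2 + e2 * a2 + Complex.I * (2 * c2 * a2 * star c2 + c2 ^ 2 * star a2))) = 0) :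
    (c1 ≠ c2 → α = 0 ∧ a1 = 0 ∧ a2 = 0 ∧ b1 = 0 ∧ b2 = 0) ∧
      (c1 = c2 → e1 ≠ e2 → a1 = 0 ∧ a2 = 0) := by
  constructor
  · intro hne
    have hd : c1 - c2 ≠ 0 := sub_ne_zero.mpr hne
    -- a1 + a2 = 0
    have hs : (a1 + a2) * (c1 - c2) = 0 := by
      linear_combination h2 - (c1 + c2) * h1
    have hs' : a2 = -a1 := by
      have := (mul_eq_zero.mp hs).resolve_right hd
      linear_combination this
    subst hs'
    have ha : a1 = -(α : ℂ) * (c1 - c2) / 2 := by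
      linear_combination (1 / 2 : ℂ) * h1
    have h3' : (α : ℂ) * (e1 - e2) + (b1 - b2) = 0 := by exact_mod_cast h3
    have hst : star a1 = -(α : ℂ) * (star c1 - star c2) / 2 := by
      rw [ha]; simp
    have hst2 : star (-a1) = (α : ℂ) * (star c1 - star c2) / 2 := by
      rw [star_neg, hst]; ring
    rw [hst, hst2] at h4
    have h5 : (c1 - c2) * (((b1 + b2 : ℝ) : ℂ) -
        Complex.I * α * ((c1 - c2) * star (c1 - c2))) = 0 := by
      rw [star_sub]
      push_cast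
      rw [ha] at h4
      linear_combination 2 * h4 - (c1 + c2) * h3'
    have h6 := (mul_eq_zero.mp h5).resolve_left hd
    have hn : (c1 - c2) * star (c1 - c2) = ((Complex.normSq (c1 - c2) : ℝ) : ℂ) :=
      Complex.mul_conj _
    rw [hn] at h6
    have hre := congrArg Complex.re h6
    have him := congrArg Complex.im h6
    simp at hre him
    have hα : α = 0 := by
      rcases him with h | h
      · exact h
      · exact absurd h hd
    subst hα
    have hb : b1 = 0 := by linarith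
    have hb2 : b2 = 0 := by linarith
    have ha0 : a1 = 0 := by rw [ha]; simp
    exact ⟨rfl, ha0, by simp [ha0], hb, hb2⟩
  · intro heq hee
    subst heq
    have ha : a1 = a2 := by linear_combination h1
    subst ha
    have h3' : (α : ℂ) * (e1 - e2) + (b1 - b2) = 0 := by exact_mod_cast h3
    have : ((e1 : ℂ) - e2) * a1 = 0 := by
      linear_combination h4 - c1 * h3'
    have hee' : ((e1 : ℂ) - e2) ≠ 0 := by
      rw [sub_ne_zero]; exact_mod_cast hee
    have := (mul_eq_zero.mp this).resolve_left hee'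
    exact ⟨this, this⟩

section mfld

variable {E H M : Type*} [NormedAddCommGroup E] [NormedSpace ℝ E] [TopologicalSpace H]
  {I : ModelWithCorners ℝ E H} [TopologicalSpace M] [ChartedSpace H M]

/-- The value `dφ_x(v)` as a vector of `ℝᴺ`. -/
def tanMap {N : ℕ} (φ : M → Eu N) (x : M) (v : TangentSpace I x) : Eu N :=
  mfderiv I 𝓘(ℝ, Eu N) φ x v

lemma skew_of {N : ℕ} (φ : M → Eu N) (x y : M)
    (hk : ∀ (α : ℝ) (v : TangentSpace I x) (w : TangentSpace I y),
      α • (φ x - φ y) + (tanMap φ x v - tanMap φ y w) = 0 → α = 0 ∧ v = 0 ∧ w = 0) :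
    Skew (affineTangent I φ x) (affineTangent I φ y) := by
  constructor
  · rw [Set.disjoint_left]
    intro p hp hq
    rw [SetLike.mem_coe, affineTangent, AffineSubspace.mem_mk'] at hp hq
    obtain ⟨v, hv⟩ := hp
    obtain ⟨w, hw⟩ := hq
    have := hk 1 v w (by
      have hv' : tanMap φ x v = p - φ x := hv
      have hw' : tanMap φ y w = p - φ y := hw
      rw [hv', hw', one_smul]; abel)
    exact one_ne_zero this.1
  · rw [affineTangent, affineTangent, AffineSubspace.direction_mk', AffineSubspace.direction_mk',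
      Submodule.disjoint_def]
    intro p hp hq
    obtain ⟨v, hv⟩ := hp
    obtain ⟨w, hw⟩ := hq
    have hv' : tanMap φ x v = p := hv
    have hw' : tanMap φ y w = p := hw
    have := hk 0 v w (by rw [hv', hw', zero_smul]; abel)
    rw [← hv', this.2.1]
    exact map_zero (mfderiv I 𝓘(ℝ, Eu N) φ x)

/-- `ℝ³ = ℂ × ℝ`. -/
def P : Eu 3 →L[ℝ] ℂ × ℝ := LinearMap.toContinuousLinearMap
  { toFun := fun p => (⟨p 0, p 1⟩, p 2)
    map_add' := fun p q => by
      refine Prod.ext (Complex.ext ?_ ?_) ?_ <;> simp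
    map_smul' := fun a p => by
      refine Prod.ext (Complex.ext ?_ ?_) ?_ <;> simp }

lemma P_apply (p : Eu 3) : P p = (⟨p 0, p 1⟩, p 2) := rfl

/-- The map `(c, t) ↦ (c, c², t, t c + i |c|² c)`. -/
def Phi (p : ℂ × ℝ) : ℂ × ℂ × ℝ × ℂ :=
  (p.1, p.1 ^ 2, p.2, p.2 * p.1 + Complex.I * (p.1 ^ 2 * star p.1))

/-- Its derivative. -/
def DPhi (p : ℂ × ℝ) : ℂ × ℝ →L[ℝ] ℂ × ℂ × ℝ × ℂ := LinearMap.toContinuousLinearMap
  { toFun := fun q => (q.1, 2 * p.1 * q.1, q.2,
      q.2 * p.1 + p.2 * q.1 + Complex.I * (2 * p.1 * q.1 * star p.1 + p.1 ^ 2 * star q.1))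
    map_add' := fun q r => by
      refine Prod.ext ?_ (Prod.ext ?_ (Prod.ext ?_ ?_)) <;> simp <;> ring
    map_smul' := fun a q => by
      refine Prod.ext ?_ (Prod.ext ?_ (Prod.ext ?_ ?_)) <;> simp <;> ring }

lemma DPhi_apply (p q : ℂ × ℝ) : DPhi p q = (q.1, 2 * p.1 * q.1, q.2,
      q.2 * p.1 + p.2 * q.1 + Complex.I * (2 * p.1 * q.1 * star p.1 + p.1 ^ 2 * star q.1)) := rfl

lemma contDiff_Phi : ContDiff ℝ ∞ Phi := by
  unfold Phi
  have h1 : ContDiff ℝ ∞ (fun p : ℂ × ℝ => p.1) := contDiff_fst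
  have h2 : ContDiff ℝ ∞ (fun p : ℂ × ℝ => p.2) := contDiff_snd
  have h3 : ContDiff ℝ ∞ (fun p : ℂ × ℝ => star p.1) :=
    Complex.conjCLE.contDiff.comp h1
  have h4 : ContDiff ℝ ∞ (fun p : ℂ × ℝ => (p.2 : ℂ)) :=
    Complex.ofRealCLM.contDiff.comp h2
  fun_prop

lemma hasFDerivAt_Phi (p : ℂ × ℝ) : HasFDerivAt Phi (DPhi p) p := by
  have h1 : HasFDerivAt (fun p : ℂ × ℝ => p.1) (ContinuousLinearMap.fst ℝ ℂ ℝ) p :=
    hasFDerivAt_fst
  have h2 : HasFDerivAt (fun p : ℂ × ℝ => p.2) (ContinuousLinearMap.snd ℝ ℂ ℝ) p :=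
    hasFDerivAt_snd
  have h3 : HasFDerivAt (fun p : ℂ × ℝ => star p.1)
      ((Complex.conjCLE : ℂ →L[ℝ] ℂ).comp (ContinuousLinearMap.fst ℝ ℂ ℝ)) p :=
    (Complex.conjCLE : ℂ →L[ℝ] ℂ).hasFDerivAt.comp p h1
  have h4 : HasFDerivAt (fun p : ℂ × ℝ => (p.2 : ℂ))
      (Complex.ofRealCLM.comp (ContinuousLinearMap.snd ℝ ℂ ℝ)) p :=
    Complex.ofRealCLM.hasFDerivAt.comp p h2
  have h5 := h1.prodMk ((h1.pow 2).prodMk (h2.prodMk ((h4.mul h1).add
    (((h1.pow 2).mul h3).const_mul Complex.I))))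
  refine h5.congr_fderiv ?_
  ext q <;> simp [DPhi_apply]
  all_goals ring

/-- A linear identification of `ℂ × ℂ × ℝ × ℂ` with `ℝ⁷`. -/
def L : (ℂ × ℂ × ℝ × ℂ) ≃L[ℝ] Eu 7 := ContinuousLinearEquiv.ofFinrankEq (by
  simp [Complex.finrank_real_complex])

/-- The map `ℝ³ → ℝ⁷`. -/
def Psi (p : Eu 3) : Eu 7 := L (Phi (P p))

lemma contDiff_Psi : ContDiff ℝ ∞ Psi :=
  L.contDiff.comp (contDiff_Phi.comp P.contDiff)

lemma hasFDerivAt_Psi (p : Eu 3) :
    HasFDerivAt Psi ((L : (ℂ × ℂ × ℝ × ℂ) →L[ℝ] Eu 7).comp ((DPhi (P p)).comp P)) p :=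
  (L : (ℂ × ℂ × ℝ × ℂ) →L[ℝ] Eu 7).hasFDerivAt.comp p
    ((hasFDerivAt_Phi (P p)).comp p P.hasFDerivAt)

lemma isEmbedding_Psi : IsEmbedding Psi := by
  have hinv : Function.LeftInverse
      (fun q : Eu 7 => (!₂[(L.symm q).1.re, (L.symm q).1.im, (L.symm q).2.2.1] : Eu 3)) Psi := by
    intro p
    ext i
    fin_cases i <;> simp [Psi, Phi, P_apply]
  refine hinv.isEmbedding ?_ contDiff_Psi.continuous
  have h1 : Continuous (fun q : Eu 7 => L.symm q) := L.symm.continuous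
  refine (PiLp.continuous_toLp 2 _).comp ?_
  refine continuous_pi fun i => ?_
  fin_cases i
  · exact Complex.continuous_re.comp (continuous_fst.comp h1)
  · exact Complex.continuous_im.comp (continuous_fst.comp h1)
  · exact (continuous_fst.comp (continuous_snd.comp (continuous_snd.comp h1)))

/-- The derivative of `Psi`. -/
def DPsi (p : Eu 3) : Eu 3 →L[ℝ] Eu 7 :=
  (L : (ℂ × ℂ × ℝ × ℂ) →L[ℝ] Eu 7).comp ((DPhi (P p)).comp P)

lemma DPsi_apply (p a : Eu 3) : DPsi p a = L (DPhi (P p) (P a)) := rfl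

lemma DPsi_injective (p a : Eu 3) (h : DPsi p a = 0) : a = 0 := by
  rw [DPsi_apply] at h
  have h1 : DPhi (P p) (P a) = 0 := by simpa using h
  rw [DPhi_apply, P_apply a] at h1
  simp only [Prod.mk_eq_zero] at h1
  have h3 := congrArg Complex.re h1.1
  have h4 := congrArg Complex.im h1.1
  have h5 := h1.2.2.1
  ext i
  fin_cases i
  · simpa using h3
  · simpa using h4
  · simpa using h5

/-- The heart of the matter. -/
lemma pointwise (p q a b : Eu 3) (α : ℝ) (hpq : p ≠ q)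
    (hV : p 0 = q 0 → p 1 = q 1 →
      (a 0 = 0 → a 1 = 0 → a = 0) ∧ (b 0 = 0 → b 1 = 0 → b = 0))
    (hr : α • (Psi p - Psi q) + (DPsi p a - DPsi q b) = 0) : α = 0 ∧ a = 0 ∧ b = 0 := by
  rw [DPsi_apply, DPsi_apply] at hr
  have hr' : L (α • (Phi (P p) - Phi (P q)) + (DPhi (P p) (P a) - DPhi (P q) (P b))) = 0 := by
    rw [map_add, map_smul, map_sub, map_sub]
    exact hr
  have h1 := (map_eq_zero_iff L L.injective).mp hr'
  simp only [DPhi_apply, Phi, P_apply] at h1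
  have g1 := congrArg (fun q : ℂ × ℂ × ℝ × ℂ => q.1) h1
  have g2 := congrArg (fun q : ℂ × ℂ × ℝ × ℂ => q.2.1) h1
  have g3 := congrArg (fun q : ℂ × ℂ × ℝ × ℂ => q.2.2.1) h1
  have g4 := congrArg (fun q : ℂ × ℂ × ℝ × ℂ => q.2.2.2) h1
  simp only [Prod.fst_add, Prod.snd_add, Prod.smul_fst, Prod.smul_snd, Prod.fst_sub,
    Prod.snd_sub, Prod.fst_zero, Prod.snd_zero, Complex.real_smul, smul_eq_mul] at g1 g2 g3 g4
  have hk := key _ _ _ _ _ _ _ _ _ g1 g2 g3 g4
  have hzero : ∀ u : Eu 3, u 0 = 0 → u 1 = 0 → u 2 = 0 → u = 0 := by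
    intro u h0 h1 h2
    ext i
    fin_cases i
    · simpa using h0
    · simpa using h1
    · simpa using h2
  by_cases hc : (⟨p 0, p 1⟩ : ℂ) = ⟨q 0, q 1⟩
  · have hc' := hc
    rw [Complex.mk.injEq] at hc'
    have ht : p 2 ≠ q 2 := by
      intro ht
      apply hpq
      ext i
      fin_cases i
      · simpa using hc'.1
      · simpa using hc'.2
      · simpa using ht
    obtain ⟨ha1, ha2⟩ := hk.2 hc ht
    rw [Complex.ext_iff] at ha1 ha2
    obtain ⟨hVa, hVb⟩ := hV hc'.1 hc'.2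
    have hv : a = 0 := hVa ha1.1 ha1.2
    have hw : b = 0 := hVb ha2.1 ha2.2
    refine ⟨?_, hv, hw⟩
    rw [hv, hw] at g3
    simp only [PiLp.zero_apply, sub_self, add_zero] at g3
    exact (mul_eq_zero.mp g3).resolve_right (sub_ne_zero.mpr ht)
  · obtain ⟨hα, ha1, ha2, hb1, hb2⟩ := hk.1 hc
    rw [Complex.ext_iff] at ha1 ha2
    exact ⟨hα, hzero a ha1.1 ha1.2 hb1, hzero b ha2.1 ha2.2 hb2⟩

/-- The general criterion. -/
theorem criterion {ι : M → Eu 3} (h : IsSmoothEmbedding I ι)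
    (hV : ∀ x y : M, x ≠ y → ι x 0 = ι y 0 → ι x 1 = ι y 1 → ∀ v : TangentSpace I x,
      tanMap ι x v 0 = 0 → tanMap ι x v 1 = 0 → v = 0) :
    ∃ φ : M → Eu 7, IsTotallySkewEmbedding I φ := by
  have hmd : ∀ x, HasMFDerivAt I 𝓘(ℝ, Eu 3) ι x (mfderiv I 𝓘(ℝ, Eu 3) ι x) := fun x =>
    (h.smooth.mdifferentiable (by simp) x).hasMFDerivAt
  have hmd' : ∀ x, HasMFDerivAt I 𝓘(ℝ, Eu 7) (fun x => Psi (ι x)) x
      ((DPsi (ι x)).comp (mfderiv I 𝓘(ℝ, Eu 3) ι x)) := fun x =>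
    (hasFDerivAt_Psi (ι x)).hasMFDerivAt.comp x (hmd x)
  have htan : ∀ x (v : TangentSpace I x), tanMap (fun x => Psi (ι x)) x v =
      DPsi (ι x) (tanMap ι x v) := by
    intro x v
    unfold tanMap
    rw [(hmd' x).mfderiv]
    rfl
  have hinj : ∀ x (v : TangentSpace I x), tanMap ι x v = 0 → v = 0 := fun x v hv =>
    (injective_iff_map_eq_zero _).mp (h.immersion x) v hv
  refine ⟨fun x => Psi (ι x), ⟨?_, ?_, ?_⟩, ?_⟩
  · exact contDiff_Psi.contMDiff.comp h.smooth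
  · intro x
    rw [injective_iff_map_eq_zero]
    intro v hv
    have hv' : tanMap (fun x => Psi (ι x)) x v = 0 := hv
    rw [htan] at hv'
    exact hinj x v (DPsi_injective _ _ hv')
  · exact isEmbedding_Psi.comp h.embedding
  · intro x y hxy
    have hne : ι x ≠ ι y := fun he => hxy (by simp [he])
    have hxy' : x ≠ y := fun he => hne (by rw [he])
    apply skew_of
    intro α v w hr
    rw [htan, htan] at hr
    have hz : ∀ (z : M), tanMap (I := I) ι z 0 = 0 := fun z =>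
      map_zero (mfderiv I 𝓘(ℝ, Eu 3) ι z)
    have := pointwise (ι x) (ι y) (tanMap ι x v) (tanMap ι y w) α hne (fun h0 h1 =>
      ⟨fun ha hb => by rw [hV x y hxy' h0 h1 v ha hb]; exact hz x,
       fun ha hb => by rw [hV y x hxy'.symm h0.symm h1.symm w ha hb]; exact hz y⟩) hr
    exact ⟨this.1, hinj x v this.2.1, hinj y w this.2.2⟩

/-- The projection `ℝ³ → ℝ²`. -/
def proj : Eu 3 →L[ℝ] Eu 2 := LinearMap.toContinuousLinearMap
  { toFun := fun p => !₂[p 0, p 1]
    map_add' := fun p q => by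
      ext i; fin_cases i <;> simp
    map_smul' := fun a p => by
      ext i; fin_cases i <;> simp }

lemma proj_apply (p : Eu 3) : proj p = !₂[p 0, p 1] := rfl

lemma hasFDerivAt_surfFun {F : Eu 2 → ℝ} (hF : Differentiable ℝ F) (p : Eu 3) :
    HasFDerivAt (surfFun F) ((2 * p 2) • (EuclideanSpace.proj 2 : Eu 3 →L[ℝ] ℝ) -
      (fderiv ℝ F (proj p)).comp proj) p := by
  have h1 : HasFDerivAt (fun p : Eu 3 => p 2) (EuclideanSpace.proj 2 : Eu 3 →L[ℝ] ℝ) p :=
    (EuclideanSpace.proj 2 : Eu 3 →L[ℝ] ℝ).hasFDerivAt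
  have h2 : HasFDerivAt (fun p : Eu 3 => F (proj p)) ((fderiv ℝ F (proj p)).comp proj) p :=
    (hF (proj p)).hasFDerivAt.comp p proj.hasFDerivAt
  have h3 := (h1.pow 2).sub h2
  refine h3.congr_fderiv ?_
  ext v
  simp

lemma surf_vertical {F : Eu 2 → ℝ} (hF : Differentiable ℝ F) {p q a : Eu 3} (hpq : p ≠ q)
    (hp : surfFun F p = 0) (hq : surfFun F q = 0) (h0 : p 0 = q 0) (h1 : p 1 = q 1)
    (ha : fderiv ℝ (surfFun F) p a = 0) (ha0 : a 0 = 0) (ha1 : a 1 = 0) : a = 0 := by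
  have hp2 : p 2 ≠ 0 := by
    intro h2
    apply hpq
    unfold surfFun at hp hq
    rw [h0, h1, h2] at hp
    have hq2 : q 2 = 0 := by
      have : q 2 ^ 2 = 0 := by linarith
      simpa using this
    ext i
    fin_cases i
    · simpa using h0
    · simpa using h1
    · simpa [hq2] using h2
  rw [(hasFDerivAt_surfFun hF p).fderiv] at ha
  have hproj : proj a = 0 := by
    rw [proj_apply]
    ext i
    fin_cases i
    · simpa using ha0
    · simpa using ha1
  simp [hproj] at ha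
  have ha2 : a 2 = 0 := by
    rcases ha with h | h
    · exact absurd h hp2
    · exact h
  ext i
  fin_cases i
  · simpa using ha0
  · simpa using ha1
  · simpa using ha2

theorem level {F : Eu 2 → ℝ} (hF : Differentiable ℝ F) {ι : M → Eu 3}
    (h : IsSmoothEmbedding I ι) (hS : ∀ x, surfFun F (ι x) = 0) :
    ∃ φ : M → Eu 7, IsTotallySkewEmbedding I φ := by
  apply criterion h
  intro x y hxy h0 h1 v hv0 hv1
  have hne : ι x ≠ ι y := fun he => hxy (h.embedding.injective he)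
  have hmd : HasMFDerivAt I 𝓘(ℝ, Eu 3) ι x (mfderiv I 𝓘(ℝ, Eu 3) ι x) :=
    (h.smooth.mdifferentiable (by simp) x).hasMFDerivAt
  have hmd' : HasMFDerivAt I 𝓘(ℝ, ℝ) (fun x => surfFun F (ι x)) x
      ((fderiv ℝ (surfFun F) (ι x)).comp (mfderiv I 𝓘(ℝ, Eu 3) ι x)) :=
    ((hasFDerivAt_surfFun hF (ι x)).differentiableAt.hasFDerivAt).hasMFDerivAt.comp x hmd
  have hcon : HasMFDerivAt I 𝓘(ℝ, ℝ) (fun x => surfFun F (ι x)) x
      (0 : TangentSpace I x →L[ℝ] TangentSpace 𝓘(ℝ, ℝ) (0 : ℝ)) := by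
    have : (fun x => surfFun F (ι x)) = fun _ => (0 : ℝ) := funext hS
    rw [this]
    exact hasMFDerivAt_const 0 x
  have hv : fderiv ℝ (surfFun F) (ι x) (tanMap ι x v) = 0 := by
    have e := hasMFDerivAt_unique hmd' hcon
    have := congrArg (fun T : TangentSpace I x →L[ℝ] ℝ => T v) e
    exact this
  have := surf_vertical hF hne (hS x) (hS y) h0 h1 hv hv0 hv1
  exact (injective_iff_map_eq_zero _).mp (h.immersion x) v this

end mfld

/-! ### The surfaces of genus `g` -/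

/-- The function `((3g+2)² - x² - y²) ∏_{j<g} ((x-3j)² + y² - 1)`. -/
def genusFun (g : ℕ) (u : Eu 2) : ℝ :=
  ((3 * (g : ℝ) + 2) ^ 2 - (u 0 ^ 2 + u 1 ^ 2)) *
    ∏ j ∈ Finset.range g, ((u 0 - 3 * (j : ℝ)) ^ 2 + u 1 ^ 2 - 1)

lemma contDiff_coord (i : Fin 2) : ContDiff ℝ ∞ (fun u : Eu 2 => u i) :=
  (EuclideanSpace.proj i : Eu 2 →L[ℝ] ℝ).contDiff

lemma contDiff_outer (r : ℝ) : ContDiff ℝ ∞ (fun u : Eu 2 => r ^ 2 - (u 0 ^ 2 + u 1 ^ 2)) := by
  have h0 := contDiff_coord 0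
  have h1 := contDiff_coord 1
  fun_prop

lemma contDiff_inner (r : ℝ) : ContDiff ℝ ∞ (fun u : Eu 2 => (u 0 - r) ^ 2 + u 1 ^ 2 - 1) := by
  have h0 := contDiff_coord 0
  have h1 := contDiff_coord 1
  fun_prop

lemma contDiff_holes (s : Finset ℕ) :
    ContDiff ℝ ∞ (fun u : Eu 2 => ∏ j ∈ s, ((u 0 - 3 * (j : ℝ)) ^ 2 + u 1 ^ 2 - 1)) :=
  _root_.contDiff_prod fun j _ => contDiff_inner (3 * (j : ℝ))

lemma contDiff_genusFun (g : ℕ) : ContDiff ℝ ∞ (genusFun g) :=
  (contDiff_outer (3 * (g : ℝ) + 2)).mul (contDiff_holes _)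

lemma contDiff_surfFun {F : Eu 2 → ℝ} (hF : ContDiff ℝ ∞ F) : ContDiff ℝ ∞ (surfFun F) := by
  have h1 : ContDiff ℝ ∞ (fun p : Eu 3 => p 2) :=
    (EuclideanSpace.proj 2 : Eu 3 →L[ℝ] ℝ).contDiff
  exact (h1.pow 2).sub (hF.comp proj.contDiff)

lemma fderiv_outer (r : ℝ) (u w : Eu 2) :
    fderiv ℝ (fun u : Eu 2 => r ^ 2 - (u 0 ^ 2 + u 1 ^ 2)) u w = -(2 * u 0 * w 0 + 2 * u 1 * w 1) := by
  have h0 : HasFDerivAt (fun u : Eu 2 => u 0) (EuclideanSpace.proj 0 : Eu 2 →L[ℝ] ℝ) u :=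
    (EuclideanSpace.proj 0 : Eu 2 →L[ℝ] ℝ).hasFDerivAt
  have h1 : HasFDerivAt (fun u : Eu 2 => u 1) (EuclideanSpace.proj 1 : Eu 2 →L[ℝ] ℝ) u :=
    (EuclideanSpace.proj 1 : Eu 2 →L[ℝ] ℝ).hasFDerivAt
  have h : HasFDerivAt (fun u : Eu 2 => r ^ 2 - (u 0 ^ 2 + u 1 ^ 2)) _ u :=
    ((h0.pow 2).add (h1.pow 2)).const_sub (r ^ 2)
  rw [h.fderiv]
  simp

lemma fderiv_inner' (r : ℝ) (u w : Eu 2) :
    fderiv ℝ (fun u : Eu 2 => (u 0 - r) ^ 2 + u 1 ^ 2 - 1) u w =
      2 * (u 0 - r) * w 0 + 2 * u 1 * w 1 := by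
  have h0 : HasFDerivAt (fun u : Eu 2 => u 0) (EuclideanSpace.proj 0 : Eu 2 →L[ℝ] ℝ) u :=
    (EuclideanSpace.proj 0 : Eu 2 →L[ℝ] ℝ).hasFDerivAt
  have h1 : HasFDerivAt (fun u : Eu 2 => u 1) (EuclideanSpace.proj 1 : Eu 2 →L[ℝ] ℝ) u :=
    (EuclideanSpace.proj 1 : Eu 2 →L[ℝ] ℝ).hasFDerivAt
  have h : HasFDerivAt (fun u : Eu 2 => (u 0 - r) ^ 2 + u 1 ^ 2 - 1) _ u :=
    (((h0.sub_const r).pow 2).add (h1.pow 2)).sub_const 1
  rw [h.fderiv]
  simp

lemma factor_pos {g j : ℕ} (hj : j < g) {x y : ℝ} (h : (3 * (g : ℝ) + 2) ^ 2 ≤ x ^ 2 + y ^ 2) :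
    0 < (x - 3 * (j : ℝ)) ^ 2 + y ^ 2 - 1 := by
  have hj' : (j : ℝ) + 1 ≤ g := by exact_mod_cast hj
  have hj0 : (0 : ℝ) ≤ j := Nat.cast_nonneg j
  set r := √(x ^ 2 + y ^ 2) with hr
  have hr0 : 0 ≤ r := Real.sqrt_nonneg _
  have hr2 : r ^ 2 = x ^ 2 + y ^ 2 := Real.sq_sqrt (by positivity)
  have hrg : 3 * (g : ℝ) + 2 ≤ r := by
    exact (le_abs_self _).trans (Real.abs_le_sqrt h)
  have hx : x ≤ r := (le_abs_self _).trans (Real.abs_le_sqrt (by nlinarith [sq_nonneg y]))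
  have h5 : 5 ≤ r - 3 * (j : ℝ) := by linarith
  nlinarith [mul_nonneg hj0 (sub_nonneg.mpr hx)]

lemma hole_disjoint {i j : ℕ} (hij : i ≠ j) {x y : ℝ}
    (hi : (x - 3 * (i : ℝ)) ^ 2 + y ^ 2 - 1 = 0) : (x - 3 * (j : ℝ)) ^ 2 + y ^ 2 - 1 ≠ 0 := by
  intro hj
  have h1 : ((i : ℝ) - j) ^ 2 ≥ 1 := by
    have : ((i : ℤ) - j) ^ 2 ≥ 1 := by
      have : (i : ℤ) - j ≠ 0 := by omega
      have := sq_pos_of_ne_zero this
      omega
    exact_mod_cast this
  have hne : (i : ℝ) - j ≠ 0 := by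
    intro h; rw [h] at h1; norm_num at h1
  have h2 : ((i : ℝ) - j) * (2 * x - 3 * i - 3 * j) = 0 := by nlinarith
  have h3 := (mul_eq_zero.mp h2).resolve_left hne
  have hx : x = 3 * ((i : ℝ) + j) / 2 := by linarith
  rw [hx] at hi
  nlinarith [sq_nonneg y]

lemma outer_ne {g j : ℕ} (hj : j < g) {x y : ℝ}
    (h : (x - 3 * (j : ℝ)) ^ 2 + y ^ 2 - 1 = 0) :
    (3 * (g : ℝ) + 2) ^ 2 - (x ^ 2 + y ^ 2) ≠ 0 := by
  intro h2
  exact absurd h (factor_pos hj (by linarith)).ne'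

lemma regular (g : ℕ) (p : Eu 3) (hp : surfFun (genusFun g) p = 0) :
    fderiv ℝ (surfFun (genusFun g)) p ≠ 0 := by
  intro h0
  have hF : Differentiable ℝ (genusFun g) := (contDiff_genusFun g).differentiable (by simp)
  rw [(hasFDerivAt_surfFun hF p).fderiv] at h0
  have h1 := congrArg (fun T : Eu 3 →L[ℝ] ℝ => T (!₂[0, 0, 1])) h0
  have hpr : proj (!₂[0, 0, 1] : Eu 3) = 0 := by
    rw [proj_apply]; ext i; fin_cases i <;> simp
  simp [hpr] at h1
  have hFp : genusFun g (proj p) = 0 := by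
    unfold surfFun at hp
    rw [proj_apply]
    rw [h1] at hp
    linarith
  have h2 : ∀ w : Eu 2, fderiv ℝ (genusFun g) (proj p) w = 0 := by
    intro w
    have := congrArg (fun T : Eu 3 →L[ℝ] ℝ => T (!₂[w 0, w 1, 0])) h0
    have hpr : proj (!₂[w 0, w 1, 0] : Eu 3) = w := by
      rw [proj_apply]; ext i; fin_cases i <;> simp
    simp [hpr, h1] at this
    exact this
  generalize proj p = u at hFp h2
  have hmul := mul_eq_zero.mp hFp
  have hdo : DifferentiableAt ℝ (fun u : Eu 2 => (3 * (g : ℝ) + 2) ^ 2 - (u 0 ^ 2 + u 1 ^ 2)) u :=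
    (contDiff_outer _).differentiable (by simp) u
  have hdp : ∀ s : Finset ℕ, DifferentiableAt ℝ
      (fun u : Eu 2 => ∏ j ∈ s, ((u 0 - 3 * (j : ℝ)) ^ 2 + u 1 ^ 2 - 1)) u := fun s =>
    (contDiff_holes s).differentiable (by simp) u
  by_cases ho : (3 * (g : ℝ) + 2) ^ 2 - (u 0 ^ 2 + u 1 ^ 2) = 0
  · have h3 := h2 u
    have h4 : HasFDerivAt (genusFun g) _ u := hdo.hasFDerivAt.mul (hdp (Finset.range g)).hasFDerivAt
    rw [h4.fderiv] at h3
    simp only [add_apply, smul_apply, smul_eq_mul, ho,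
      zero_mul, zero_add, fderiv_outer] at h3
    rcases mul_eq_zero.mp h3 with h5 | h5
    · obtain ⟨j, hj, hj2⟩ := Finset.prod_eq_zero_iff.mp h5
      exact (factor_pos (Finset.mem_range.mp hj) (by linarith)).ne' hj2
    · have hg : (0 : ℝ) ≤ g := Nat.cast_nonneg g
      nlinarith
  · have h5 := hmul.resolve_left ho
    obtain ⟨j, hj, hj2⟩ := Finset.prod_eq_zero_iff.mp h5
    have hfun : genusFun g = fun u : Eu 2 => ((3 * (g : ℝ) + 2) ^ 2 - (u 0 ^ 2 + u 1 ^ 2)) *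
        (((u 0 - 3 * (j : ℝ)) ^ 2 + u 1 ^ 2 - 1) *
        ∏ i ∈ (Finset.range g).erase j, ((u 0 - 3 * (i : ℝ)) ^ 2 + u 1 ^ 2 - 1)) := by
      funext u
      rw [genusFun, ← Finset.mul_prod_erase (Finset.range g)
        (fun j : ℕ => (u 0 - 3 * (j : ℝ)) ^ 2 + u 1 ^ 2 - 1) hj]
    have h3 := h2 (!₂[u 0 - 3 * (j : ℝ), u 1])
    have hdi : DifferentiableAt ℝ (fun u : Eu 2 => (u 0 - 3 * (j : ℝ)) ^ 2 + u 1 ^ 2 - 1) u :=
      (contDiff_inner _).differentiable (by simp) u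
    have h4 := (hdo.hasFDerivAt.mul (hdi.hasFDerivAt.mul
      (hdp ((Finset.range g).erase j)).hasFDerivAt)).congr_of_eventuallyEq
        (Filter.EventuallyEq.of_eq hfun)
    rw [h4.fderiv] at h3
    simp only [add_apply, smul_apply, smul_eq_mul, Pi.mul_apply, hj2,
      zero_mul, zero_add, add_zero, fderiv_inner'] at h3
    rcases mul_eq_zero.mp h3 with h6 | h6
    · exact ho h6
    · rcases mul_eq_zero.mp h6 with h7 | h7
      · obtain ⟨i, hi, hi2⟩ := Finset.prod_eq_zero_iff.mp h7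
        exact hole_disjoint (Finset.ne_of_mem_erase hi).symm hj2 hi2
      · simp at h7
        nlinarith

lemma compact (g : ℕ) : IsCompact {p : Eu 3 | surfFun (genusFun g) p = 0} := by
  set R : ℝ := 3 * (g : ℝ) + 2 with hR
  have hR0 : 0 ≤ R := by positivity
  apply Metric.isCompact_of_isClosed_isBounded
  · exact isClosed_eq (contDiff_surfFun (contDiff_genusFun g)).continuous continuous_const
  · obtain ⟨C, hC⟩ := (isCompact_closedBall (0 : Eu 2) R).exists_bound_of_continuousOn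
      (contDiff_genusFun g).continuous.continuousOn
    rw [isBounded_iff_forall_norm_le]
    refine ⟨√(R ^ 2 + C), fun p hp => ?_⟩
    have hp' : p 2 ^ 2 - genusFun g !₂[p 0, p 1] = 0 := hp
    have hle : p 0 ^ 2 + p 1 ^ 2 ≤ R ^ 2 := by
      by_contra hlt
      push Not at hlt
      have hF : genusFun g !₂[p 0, p 1] < 0 := by
        unfold genusFun
        apply mul_neg_of_neg_of_pos
        · simp; linarith
        · apply Finset.prod_pos
          intro j hj
          simpa using factor_pos (Finset.mem_range.mp hj) (x := p 0) (y := p 1) hlt.le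
      nlinarith [sq_nonneg (p 2)]
    have hmem : (!₂[p 0, p 1] : Eu 2) ∈ Metric.closedBall (0 : Eu 2) R := by
      rw [mem_closedBall_zero_iff, EuclideanSpace.norm_eq]
      apply Real.sqrt_le_iff.mpr
      refine ⟨hR0, ?_⟩
      simpa [Fin.sum_univ_two] using hle
    have h3 := hC _ hmem
    have h4 := (le_abs_self _).trans (Real.norm_eq_abs _ ▸ h3)
    rw [EuclideanSpace.norm_eq]
    apply Real.sqrt_le_sqrt
    simp only [Fin.sum_univ_three, Real.norm_eq_abs, sq_abs]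
    linarith

/-! ### The result -/

/-- The zero set of `f : ℝ³ → ℝ` is compact, and the differential of `f` is nonzero at each of its
points. For `f = surfFun (genusFun g)` this zero set is the double of the disc of radius `3g+2`
with the `g` holes of radius `1` centred at `(3j, 0)`, `j < g`, removed. -/
def IsClosedSurface (f : Eu 3 → ℝ) : Prop :=
  IsCompact {p : Eu 3 | f p = 0} ∧ ∀ p, f p = 0 → fderiv ℝ f p ≠ 0

theorem result :
    (∀ g : ℕ, IsClosedSurface (surfFun (genusFun g))) ∧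
    (∀ (E H M : Type) [NormedAddCommGroup E] [NormedSpace ℝ E] [TopologicalSpace H]
      [TopologicalSpace M] [ChartedSpace H M] (I : ModelWithCorners ℝ E H)
      (ι : M → Eu 3), IsSmoothEmbedding I ι → InDouble ι ∨ VerticalCondition I ι →
      HasTotallySkewEmbedding I M 7) ∧
    HasTotallySkewEmbedding (𝓡 2) (Metric.sphere (0 : Eu 3) 1) 7 := by
  refine ⟨fun g => ⟨compact g, regular g⟩, ?_, ?_⟩
  · intro E H M _ _ _ _ _ I ι hι hcase
    rcases hcase with ⟨F, hF, hS⟩ | hV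
    · exact level hF hι hS
    · apply criterion hι
      intro x y hxy h0 h1 v hv0 hv1
      by_contra hv
      have h2 : tanMap ι x v 2 ≠ 0 := by
        intro h2
        apply hv
        apply (injective_iff_map_eq_zero _).mp (hι.immersion x) v
        have : tanMap ι x v = 0 := by
          ext i
          fin_cases i
          · simpa using hv0
          · simpa using hv1
          · simpa using h2
        exact this
      apply hV x y hxy h0 h1
      refine ⟨(tanMap ι x v 2)⁻¹ • v, ?_⟩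
      have : (mfderiv I 𝓘(ℝ, Eu 3) ι x) ((tanMap ι x v 2)⁻¹ • v) =
          (tanMap ι x v 2)⁻¹ • tanMap ι x v := by
        rw [map_smul]; rfl
      have key2 : (tanMap ι x v 2)⁻¹ • tanMap ι x v = (!₂[(0 : ℝ), 0, 1] : Eu 3) := by
        ext i
        fin_cases i
        · simp [hv0]
        · simp [hv1]
        · simp [h2]
      exact this.trans key2
  · have : Fact (finrank ℝ (Eu 3) = 2 + 1) := ⟨by simp⟩
    have hF : Differentiable ℝ (fun u : Eu 2 => (1 : ℝ) ^ 2 - (u 0 ^ 2 + u 1 ^ 2)) :=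
      (contDiff_outer 1).differentiable (by simp)
    apply level (I := 𝓡 2) (ι := fun x : Metric.sphere (0 : Eu 3) 1 => (x : Eu 3)) hF
    · exact ⟨contMDiff_coe_sphere, fun x => injective_mvfderiv_subtypeVal_sphere x,
        Topology.IsEmbedding.subtypeVal⟩
    · intro x
      have hx : ‖(x : Eu 3)‖ = 1 := by simp
      rw [EuclideanSpace.norm_eq, Real.sqrt_eq_one] at hx
      simp only [Fin.sum_univ_three, Real.norm_eq_abs, sq_abs] at hx
      simp only [surfFun]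
      simp
      linarith

end

end Pool.Agent.Results.MP_794fdb_gt.OrientableSurfaces
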