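import Pool.Agent.H80R3.Mob.Band

/-!
The totally skew embedding dimension of nonorientable surfaces is at least `7`, and it is `7` for
the Moebius band.

Lower bound: see `Pool/Agent/H80R3/Mob`. Upper bound: the map
`(θ, t) ↦ ((1 + t cos θ + t²) e^{2iθ}, t sin θ)`, `|t| < 1/2`, embeds the open Moebius band into
`ℝ³`; its projection to the plane has folds exactly along `t = - cos θ / 2`, and a fold point is the
only point of the band on its vertical line. Hence the criterion of
`Pool/Agent/Results/MP_794fdb_gt/OrientableSurfaces.lean` applies.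
-/

namespace Pool.Agent.Results.MP_794fdb_gt.MoebiusBand

open scoped Manifold ContDiff
open Set Topology Module Filter
open Pool.Agent.Results.MP_794fdb_gt.OrientableSurfaces
open Pool.Agent.Results.MP_3c016c_gt.DimensionTwo
open Pool.Agent.H80R3.Mob.Band

noncomputable section

section defs

variable {E H M E' H' M' : Type*} [NormedAddCommGroup E] [NormedSpace ℝ E] [TopologicalSpace H]
  (I : ModelWithCorners ℝ E H) [TopologicalSpace M] [ChartedSpace H M]
  [NormedAddCommGroup E'] [NormedSpace ℝ E'] [TopologicalSpace H']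
  (I' : ModelWithCorners ℝ E' H') [TopologicalSpace M'] [ChartedSpace H' M']

/-- `M` is an open Moebius band: there is a surjective local diffeomorphism from the plane to `M`
whose fibres are the orbits of the glide reflection `(θ, t) ↦ (θ + 1, -t)`. -/
def IsOpenMoebiusBand (M : Type*) [TopologicalSpace M] [ChartedSpace H M] : Prop :=
  ∃ j : Eu 2 → M, IsLocalDiffeomorph (𝓡 2) I ∞ j ∧ Function.Surjective j ∧
    ∀ p q, j p = j q ↔ GlideRel p q

/-- `M` has a smooth embedding into `M'`. -/
def EmbedsIn (M M' : Type*) [TopologicalSpace M] [ChartedSpace H M] [TopologicalSpace M']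
    [ChartedSpace H' M'] : Prop :=
  ∃ e : M → M', IsSmoothImmersion I I' e ∧ IsEmbedding e

/-- `M` has a smooth embedding into `ℝ³` with the vertical condition. -/
def EmbedsWithVerticalCondition (M : Type*) [TopologicalSpace M] [ChartedSpace H M] : Prop :=
  ∃ ι : M → Eu 3, IsSmoothEmbedding I ι ∧ VerticalCondition I ι

/-- `N(M) = n`: `n` is the least `N` such that `M` has a totally skew embedding into `ℝᴺ`. -/
def SkewDimensionIs (M : Type*) [TopologicalSpace M] [ChartedSpace H M] (n : ℕ) : Prop :=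
  IsLeast {N | HasTotallySkewEmbedding I M N} n

end defs

section mfld

variable {E H M E' H' M' : Type*} [NormedAddCommGroup E] [NormedSpace ℝ E] [TopologicalSpace H]
  {I : ModelWithCorners ℝ E H} [TopologicalSpace M] [ChartedSpace H M]
  [NormedAddCommGroup E'] [NormedSpace ℝ E'] [TopologicalSpace H']
  {I' : ModelWithCorners ℝ E' H'} [TopologicalSpace M'] [ChartedSpace H' M']

/-- The vertical condition in the form used by the criterion. -/
def Vert (I : ModelWithCorners ℝ E H) (ι : M → Eu 3) : Prop :=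
  ∀ x y : M, x ≠ y → ι x 0 = ι y 0 → ι x 1 = ι y 1 → ∀ v : TangentSpace I x,
      tanMap ι x v 0 = 0 → tanMap ι x v 1 = 0 → v = 0

theorem lower (h : ContainsMoebius I (Eq : M → M → Prop)) {N : ℕ}
    (hN : HasTotallySkewEmbedding I M N) : 7 ≤ N := by
  obtain ⟨j, hj, hfib⟩ := h
  obtain ⟨φ, hφ⟩ := hN
  exact seven_le ⟨⟨hφ.smooth, hφ.immersion⟩, hφ.skew⟩ hj
    (fun p q => hφ.embedding.injective.eq_iff.trans (hfib p q))

theorem band_embedding (hM : IsOpenMoebiusBand I M) :
    ∃ ι : M → Eu 3, IsSmoothEmbedding I ι ∧ Vert I ι := by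
  obtain ⟨j, hj, hsurj, hfib⟩ := hM
  have hsurj' := hsurj
  choose s hs using hsurj'
  set ι : M → Eu 3 := fun q => mob (s q) with hι
  have hιj : ∀ p, ι (j p) = mob p := fun p => mob_glide ((hfib _ _).mp (hs (j p)))
  have hsm : ContMDiff I 𝓘(ℝ, Eu 3) ∞ ι := by
    intro q
    obtain ⟨p, rfl⟩ := hsurj q
    have h1 : ContMDiffAt I 𝓘(ℝ, Eu 3) ∞ (mob ∘ (hj p).localInverse) (j p) :=
      (mob_contDiff.contMDiff.contMDiffAt).comp (j p) (hj p).localInverse_contMDiffAt
    refine h1.congr_of_eventuallyEq ?_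
    filter_upwards [(hj p).localInverse.open_source.mem_nhds (hj p).localInverse_mem_source]
      with y hy
    have h2 := (hj p).localInverse_right_inv hy
    show ι y = mob ((hj p).localInverse y)
    rw [← hιj, h2]
  have hder : ∀ p (a : Eu 2), tanMap (I := I) ι (j p) (mfderiv (𝓡 2) I j p a) =
      fderiv ℝ mob p a := by
    intro p a
    have h1 : HasMFDerivAt (𝓡 2) I j p (mfderiv (𝓡 2) I j p) :=
      ((hj p).mdifferentiableAt (by simp)).hasMFDerivAt
    have h2 : HasMFDerivAt I 𝓘(ℝ, Eu 3) ι (j p) (mfderiv I 𝓘(ℝ, Eu 3) ι (j p)) :=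
      (hsm.mdifferentiable (by simp) (j p)).hasMFDerivAt
    have h3 : mfderiv (𝓡 2) 𝓘(ℝ, Eu 3) (fun p => ι (j p)) p = _ := (h2.comp p h1).mfderiv
    rw [← mfderiv_eq_fderiv]
    have h4 : (fun p => ι (j p)) = mob := funext hιj
    rw [h4] at h3
    rw [h3]
    rfl
  have hex : ∀ p (v : TangentSpace I (j p)), ∃ a : Eu 2, mfderiv (𝓡 2) I j p a = v := by
    intro p v
    exact ((hj p).mfderivToContinuousLinearEquiv (by simp)).surjective v
  refine ⟨ι, ⟨hsm, ?_, ?_⟩, ?_⟩
  · intro q
    obtain ⟨p, rfl⟩ := hsurj q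
    rw [injective_iff_map_eq_zero]
    intro v hv
    obtain ⟨a, rfl⟩ := hex p v
    have hv' : tanMap (I := I) ι (j p) (mfderiv (𝓡 2) I j p a) = 0 := hv
    rw [hder] at hv'
    rw [mob_immersion p a hv']
    exact map_zero (mfderiv (𝓡 2) I j p)
  · have hg : ∀ (θ : ℝ) (y : M), j (Sg θ (ι y)) = y := by
      intro θ y
      obtain ⟨p, rfl⟩ := hsurj y
      rw [hιj]
      exact ((hfib _ _).mpr (Sg_rel θ p)).symm
    refine ⟨?_, ?_⟩
    · rw [isInducing_iff_nhds]
      intro x
      obtain ⟨p, rfl⟩ := hsurj x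
      refine le_antisymm ((hsm.continuous.tendsto (j p)).le_comap) ?_
      have hc : ContinuousAt (fun v => j (Sg (Real.pi * p 0) v)) (ι (j p)) := by
        rw [hιj]
        exact hj.contMDiff.continuous.continuousAt.comp' (Sg_cont p)
      have h1 : 𝓝 (ι (j p)) ≤ comap (fun v => j (Sg (Real.pi * p 0) v)) (𝓝 (j p)) := by
        have := hc.tendsto.le_comap
        rwa [hg] at this
      refine (comap_mono h1).trans ?_
      rw [comap_comap]
      have h2 : (fun v => j (Sg (Real.pi * p 0) v)) ∘ ι = id := funext fun y => hg _ y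
      rw [h2, comap_id]
    · intro x y hxy
      rw [← hg 0 x, ← hg 0 y, hxy]
  · intro x y hxy h0 h1 v hv0 hv1
    obtain ⟨p, rfl⟩ := hsurj x
    obtain ⟨q, rfl⟩ := hsurj y
    obtain ⟨a, rfl⟩ := hex p v
    rw [hder] at hv0 hv1
    rw [hιj, hιj] at h0 h1
    obtain ⟨g0, g1⟩ := deriv_horizontal p a hv0 hv1
    have ha : a = 0 := by
      by_contra hne
      have ha1 : a 1 ≠ 0 := by
        intro h
        apply hne
        ext i
        fin_cases i
        · simpa using g0
        · simpa using h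
      exact hxy ((hfib p q).mpr (vertical h0 h1 ((mul_eq_zero.mp g1).resolve_right ha1)))
    rw [ha]
    exact map_zero (mfderiv (𝓡 2) I j p)

/-- Sub-surfaces. -/
theorem sub_embedding (h : ∃ ι : M' → Eu 3, IsSmoothEmbedding I' ι ∧ Vert I' ι)
    (he : EmbedsIn I I' M M') : ∃ ι : M → Eu 3, IsSmoothEmbedding I ι ∧ Vert I ι := by
  obtain ⟨ι, hι, hV⟩ := h
  obtain ⟨e, he, hemb⟩ := he
  have hder : ∀ x (v : TangentSpace I x), tanMap (fun x => ι (e x)) x v =
      tanMap (I := I') ι (e x) (mfderiv I I' e x v) := by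
    intro x v
    have h1 : HasMFDerivAt I I' e x (mfderiv I I' e x) :=
      (he.smooth.mdifferentiable (by simp) x).hasMFDerivAt
    have h2 : HasMFDerivAt I' 𝓘(ℝ, Eu 3) ι (e x) (mfderiv I' 𝓘(ℝ, Eu 3) ι (e x)) :=
      (hι.smooth.mdifferentiable (by simp) (e x)).hasMFDerivAt
    have h3 : mfderiv I 𝓘(ℝ, Eu 3) (fun x => ι (e x)) x = _ := (h2.comp x h1).mfderiv
    unfold tanMap
    rw [h3]
    rfl
  have hi : ∀ x (v : TangentSpace I x), mfderiv I I' e x v = 0 → v = 0 := fun x v hv =>
    (injective_iff_map_eq_zero _).mp (he.immersion x) v hv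
  refine ⟨fun x => ι (e x), ⟨hι.smooth.comp he.smooth, ?_, hι.embedding.comp hemb⟩, ?_⟩
  · intro x
    rw [injective_iff_map_eq_zero]
    intro v hv
    have hv' : tanMap (fun x => ι (e x)) x v = 0 := hv
    rw [hder] at hv'
    exact hi x v ((injective_iff_map_eq_zero _).mp (hι.immersion (e x)) _ hv')
  · intro x y hxy h0 h1 v hv0 hv1
    rw [hder] at hv0 hv1
    exact hi x v (hV (e x) (e y) (fun h => hxy (hemb.injective h)) h0 h1 _ hv0 hv1)

theorem moebius_contains (h : IsOpenMoebiusBand I M) :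
    ContainsMoebius I (Eq : M → M → Prop) := by
  obtain ⟨j, hj, -, hfib⟩ := h
  exact ⟨j, ⟨hj.contMDiff, fun p =>
    ((hj p).mfderivToContinuousLinearEquiv (by simp)).injective⟩, hfib⟩

theorem exact_of_vert (h : ContainsMoebius I (Eq : M → M → Prop))
    (hV : ∃ ι : M → Eu 3, IsSmoothEmbedding I ι ∧ Vert I ι) : SkewDimensionIs I M 7 := by
  obtain ⟨ι, hι, hV⟩ := hV
  exact ⟨criterion hι hV, fun N hN => lower h hN⟩

end mfld

/-- `N = 7` for the Moebius band. -/
theorem result {E H M E' H' M' : Type} [NormedAddCommGroup E] [NormedSpace ℝ E]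
    [TopologicalSpace H] (I : ModelWithCorners ℝ E H) [TopologicalSpace M] [ChartedSpace H M]
    [NormedAddCommGroup E'] [NormedSpace ℝ E'] [TopologicalSpace H']
    (I' : ModelWithCorners ℝ E' H') [TopologicalSpace M'] [ChartedSpace H' M'] :
    (ContainsMoebius I (Eq : M → M → Prop) → ∀ N, HasTotallySkewEmbedding I M N → 7 ≤ N) ∧
    (IsOpenMoebiusBand I M → SkewDimensionIs I M 7) ∧
    (ContainsMoebius I (Eq : M → M → Prop) → EmbedsWithVerticalCondition I M →
      SkewDimensionIs I M 7) ∧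
    (ContainsMoebius I (Eq : M → M → Prop) → IsOpenMoebiusBand I' M' → EmbedsIn I I' M M' →
      SkewDimensionIs I M 7) := by
  refine ⟨fun h N hN => lower h hN, fun h => exact_of_vert (moebius_contains h) (band_embedding h),
    ?_, fun h h' he => exact_of_vert h (sub_embedding (band_embedding h') he)⟩
  rintro h ⟨ι, hι, hV⟩
  exact ⟨Pool.Agent.Results.MP_794fdb_gt.OrientableSurfaces.result.2.1 E H M I ι hι (Or.inr hV),
    fun N hN => lower h hN⟩

end

end Pool.Agent.Results.MP_794fdb_gt.MoebiusBand
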