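import Mathlib

/-!
A totally skew embedding of the real projective plane into `ℝ⁸`.

With `ℝ³ = ℂ × ℝ ∋ (w, z)`, the map `(w, z) ↦ (w z, w², w³ z, w⁴) ∈ ℂ⁴ = ℝ⁸` restricted to the unit
sphere is even, and the induced map of `ℝP²` is a totally skew embedding. Writing it as
`(ψ₁, ψ₂, ψ₁ψ₂, ψ₂²)`, a relation `α (φ(x) - φ(y)) + dφ(v) - dφ(w) = 0` with `ψ₂(x) ≠ ψ₂(y)` forces
`dψ(v) = - dψ(w)`, so `ψ(x) - ψ(y)` would be tangent to the surface `ψ(S²) ⊂ ℂ²` at both points; this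
is excluded by the rotational symmetry and the convexity of the meridians.
-/

namespace Pool.Agent.Results.MP_794fdb_gt.ProjectivePlane

open scoped Manifold ContDiff
open Set Topology Module

noncomputable section

/-- The Euclidean space `ℝⁿ`. -/
abbrev Eu (n : ℕ) := EuclideanSpace ℝ (Fin n)

/-- If `w a = 0`, `a z + w c = 0`, `(a, c)` is orthogonal to `(w, z)` and `(w, z) ≠ 0`, then
`a = 0` and `c = 0`. -/
lemma imm {w a : ℂ} {z c : ℝ} (hw : Complex.normSq w + z ^ 2 = 1)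
    (ht : (star w * a).re + z * c = 0) (h1 : a * z + w * c = 0) (h2 : w * a = 0) :
    a = 0 ∧ c = 0 := by
  by_cases hw0 : w = 0
  · subst hw0
    have hz : z ≠ 0 := by
      rintro rfl
      simp at hw
    have hz' : (z : ℂ) ≠ 0 := by exact_mod_cast hz
    have ha : a = 0 := by
      have : a * (z : ℂ) = 0 := by simpa using h1
      exact (mul_eq_zero.mp this).resolve_right hz'
    subst ha
    have : z * c = 0 := by simpa using ht
    exact ⟨rfl, (mul_eq_zero.mp this).resolve_left hz⟩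
  · have ha : a = 0 := (mul_eq_zero.mp h2).resolve_left hw0
    subst ha
    have : w * (c : ℂ) = 0 := by simpa using h1
    exact ⟨rfl, by exact_mod_cast (mul_eq_zero.mp this).resolve_left hw0⟩

/-- The real-algebraic core: no bitangent chords. -/
lemma core {R1 R2 z1 z2 g k : ℝ} (h1 : R1 + z1 ^ 2 = 1) (h2 : R2 + z2 ^ 2 = 1)
    (hg : g ^ 2 + k ^ 2 = R1 * R2) (hR1 : R1 ≠ 0)
    (e1 : k * (z1 * g - z2 * R1) = 0) (e2 : k * (z2 * g - z1 * R2) = 0)
    (e3 : (R1 ^ 2 - g ^ 2 + k ^ 2) * (R1 - z1 ^ 2) + 2 * R1 * z1 * (R1 * z1 - g * z2) = 0) :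
    k = 0 ∧ R1 = R2 := by
  by_cases hk : k = 0
  · refine ⟨hk, ?_⟩
    subst hk
    have hz1 : z1 ^ 2 = 1 - R1 := by linarith
    have hz2 : z2 ^ 2 = 1 - R2 := by linarith
    have hg' : g ^ 2 = R1 * R2 := by linarith
    have e4 : R1 * (R1 * z2 ^ 2 + R2 * z1 ^ 2 - 2 * g * z1 * z2) = 0 := by
      have : (R1 ^ 2 - g ^ 2 + 0 ^ 2) * (R1 - z1 ^ 2) + 2 * R1 * z1 * (R1 * z1 - g * z2) =
        R1 * (R1 * z2 ^ 2 + R2 * z1 ^ 2 - 2 * g * z1 * z2) := by
        have : (R1 ^ 2 - g ^ 2 + 0 ^ 2) * (R1 - z1 ^ 2) + 2 * R1 * z1 * (R1 * z1 - g * z2) =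
          (R1 ^ 2 - g ^ 2) * (R1 - z1 ^ 2) + 2 * R1 * R1 * z1 ^ 2 - 2 * R1 * g * z1 * z2 := by ring
        rw [this, hg', hz1, hz2]; ring
      rw [← this]; exact e3
    have e5 := (mul_eq_zero.mp e4).resolve_left hR1
    have e6 : (R1 * z2 ^ 2 - R2 * z1 ^ 2) ^ 2 = 0 := by
      have : (R1 * z2 ^ 2 - R2 * z1 ^ 2) ^ 2 =
        (R1 * z2 ^ 2 + R2 * z1 ^ 2) ^ 2 - 4 * (R1 * R2) * z1 ^ 2 * z2 ^ 2 := by ring
      rw [this, ← hg']
      have e7 : R1 * z2 ^ 2 + R2 * z1 ^ 2 = 2 * g * z1 * z2 := by linarith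
      rw [e7]; ring
    have e8 : R1 * z2 ^ 2 - R2 * z1 ^ 2 = 0 := by
      simpa using e6
    rw [hz1, hz2] at e8
    linarith
  · exfalso
    have a1 := (mul_eq_zero.mp e1).resolve_left hk
    have a2 := (mul_eq_zero.mp e2).resolve_left hk
    have a3 : z1 * k ^ 2 = 0 := by
      have : z1 * k ^ 2 = z1 * (R1 * R2) - z1 * g ^ 2 := by rw [← hg]; ring
      rw [this]
      linear_combination (-g) * a1 - R1 * a2
    have hz1 : z1 = 0 := (mul_eq_zero.mp a3).resolve_right (pow_ne_zero 2 hk)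
    subst hz1
    have hR : R1 = 1 := by linarith
    subst hR
    have hz2 : z2 = 0 := by linarith
    subst hz2
    have hR2 : R2 = 1 := by linarith
    subst hR2
    have : k ^ 2 = 0 := by nlinarith
    exact hk (by simpa using this)

/-- The key computation for a pair of points of the sphere. -/
lemma pairKey {w1 w2 a b : ℂ} {z1 z2 c d α : ℝ}
    (hs1 : Complex.normSq w1 + z1 ^ 2 = 1) (hs2 : Complex.normSq w2 + z2 ^ 2 = 1)
    (ht1 : (star w1 * a).re + z1 * c = 0) (ht2 : (star w2 * b).re + z2 * d = 0)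
    (E1 : (α : ℂ) * (w1 * z1 - w2 * z2) + ((a * z1 + w1 * c) - (b * z2 + w2 * d)) = 0)
    (E2 : (α : ℂ) * (w1 ^ 2 - w2 ^ 2) + (2 * w1 * a - 2 * w2 * b) = 0)
    (E3 : (α : ℂ) * (w1 ^ 3 * z1 - w2 ^ 3 * z2) +
      ((3 * w1 ^ 2 * a * z1 + w1 ^ 3 * c) - (3 * w2 ^ 2 * b * z2 + w2 ^ 3 * d)) = 0)
    (E4 : (α : ℂ) * (w1 ^ 4 - w2 ^ 4) + (4 * w1 ^ 3 * a - 4 * w2 ^ 3 * b) = 0)
    (hne : ¬ (w1 ^ 2 = w2 ^ 2 ∧ w1 * z1 = w2 * z2)) :
    α = 0 ∧ (a = 0 ∧ c = 0) ∧ (b = 0 ∧ d = 0) := by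
  by_cases hw : w1 ^ 2 = w2 ^ 2
  · have hΔ : w1 * z1 - w2 * z2 ≠ 0 := fun h => hne ⟨hw, sub_eq_zero.mp h⟩
    have h1 : (2 * w1 * a + 2 * w2 * b) * (w1 * z1 - w2 * z2) = 0 := by
      linear_combination 2 * E3 - (w1 ^ 2 + w2 ^ 2) * E1 - (w1 * z1 + w2 * z2) * E2 -
        ((a * z1 + w1 * c) + (b * z2 + w2 * d)) * hw
    have h2 := (mul_eq_zero.mp h1).resolve_right hΔ
    have h3 : w1 * a = 0 := by
      linear_combination (1 / 4 : ℂ) * h2 + (1 / 4 : ℂ) * E2 - (α / 4 : ℂ) * hw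
    have h4 : w2 * b = 0 := by linear_combination (1 / 2 : ℂ) * h2 - h3
    have hn : Complex.normSq w1 = Complex.normSq w2 := by
      have := congrArg Complex.normSq hw
      rw [map_pow, map_pow] at this
      exact (pow_left_inj₀ (Complex.normSq_nonneg _) (Complex.normSq_nonneg _) two_ne_zero).mp this
    have hzz : z1 ^ 2 = z2 ^ 2 := by linarith
    have hw1 : w1 ≠ 0 := by
      rintro rfl
      have : w2 = 0 := by
        have : w2 ^ 2 = 0 := by rw [← hw]; simp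
        simpa using this
      subst this
      exact hΔ (by simp)
    have hw2 : w2 ≠ 0 := by
      rintro rfl
      have : w1 ^ 2 = 0 := by rw [hw]; simp
      exact hw1 (by simpa using this)
    have ha : a = 0 := (mul_eq_zero.mp h3).resolve_left hw1
    have hb : b = 0 := (mul_eq_zero.mp h4).resolve_left hw2
    have hz1 : z1 ≠ 0 := by
      rintro rfl
      have : z2 = 0 := by
        have : z2 ^ 2 = 0 := by rw [← hzz]; simp
        simpa using this
      subst this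
      exact hΔ (by simp)
    have hz2 : z2 ≠ 0 := by
      rintro rfl
      have : z1 ^ 2 = 0 := by rw [hzz]; simp
      exact hz1 (by simpa using this)
    subst ha hb
    have hc : c = 0 := by
      have : z1 * c = 0 := by simpa using ht1
      exact (mul_eq_zero.mp this).resolve_left hz1
    have hd : d = 0 := by
      have : z2 * d = 0 := by simpa using ht2
      exact (mul_eq_zero.mp this).resolve_left hz2
    subst hc hd
    have h5 : (α : ℂ) * (w1 * z1 - w2 * z2) = 0 := by simpa using E1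
    have h6 := (mul_eq_zero.mp h5).resolve_right hΔ
    exact ⟨by exact_mod_cast h6, ⟨rfl, rfl⟩, ⟨rfl, rfl⟩⟩
  · have hδ : w1 ^ 2 - w2 ^ 2 ≠ 0 := sub_ne_zero.mpr hw
    have h1 : (2 * w1 * a + 2 * w2 * b) * (w1 ^ 2 - w2 ^ 2) = 0 := by
      linear_combination E4 - (w1 ^ 2 + w2 ^ 2) * E2
    have hq := (mul_eq_zero.mp h1).resolve_right hδ
    have h2 : ((a * z1 + w1 * c) + (b * z2 + w2 * d)) * (w1 ^ 2 - w2 ^ 2) = 0 := by
      linear_combination 2 * E3 - (w1 ^ 2 + w2 ^ 2) * E1 - (w1 * z1 + w2 * z2) * E2 -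
        (w1 * z1 - w2 * z2) * hq
    have hp := (mul_eq_zero.mp h2).resolve_right hδ
    have q1 : 4 * (w1 * a) = -(α : ℂ) * (w1 ^ 2 - w2 ^ 2) := by linear_combination E2 + hq
    have q2 : 4 * (w2 * b) = (α : ℂ) * (w1 ^ 2 - w2 ^ 2) := by linear_combination hq - E2
    have p1 : 2 * (a * z1 + w1 * c) = -(α : ℂ) * (w1 * z1 - w2 * z2) := by
      linear_combination E1 + hp
    have p2 : 2 * (b * z2 + w2 * d) = (α : ℂ) * (w1 * z1 - w2 * z2) := by
      linear_combination hp - E1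
    by_cases hα : α = 0
    · subst hα
      refine ⟨rfl, imm hs1 ht1 ?_ ?_, imm hs2 ht2 ?_ ?_⟩
      · have : 2 * (a * z1 + w1 * c) = 0 := by rw [p1]; simp
        simpa using this
      · have : 4 * (w1 * a) = 0 := by rw [q1]; simp
        simpa using this
      · have : 2 * (b * z2 + w2 * d) = 0 := by rw [p2]; simp
        simpa using this
      · have : 4 * (w2 * b) = 0 := by rw [q2]; simp
        simpa using this
    · exfalso
      have hαC : (α : ℂ) ≠ 0 := by exact_mod_cast hα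
      have hw1 : w1 ≠ 0 := by
        rintro rfl
        have : (α : ℂ) * w2 ^ 2 = 0 := by linear_combination -q1
        have := (mul_eq_zero.mp this).resolve_left hαC
        exact hw (by rw [this]; simp)
      set R1 := Complex.normSq w1 with hR1
      set R2 := Complex.normSq w2 with hR2
      have hc1 : star w1 * w1 = (R1 : ℂ) := by
        rw [mul_comm]; exact Complex.mul_conj _
      have hc2 : star w2 * w2 = (R2 : ℂ) := by
        rw [mul_comm]; exact Complex.mul_conj _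
      set h := star w1 * w2 with hh
      have hhs : star w2 * w1 = star h := by
        rw [hh, star_mul, star_star, mul_comm]
      have hgk : h.re ^ 2 + h.im ^ 2 = R1 * R2 := by
        have : Complex.normSq h = R1 * R2 := by
          rw [hh, map_mul]
          congr 1
          exact Complex.normSq_conj w1
        rw [← this, Complex.normSq_apply]; ring
      have A1 : 4 * (R1 : ℂ) * (star w1 * a) = -(α : ℂ) * ((R1 : ℂ) ^ 2 - h ^ 2) := by
        rw [← hc1, hh]
        linear_combination (star w1) ^ 2 * q1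
      have A2 : 2 * (star w1 * a * z1 + R1 * c) = -(α : ℂ) * (R1 * z1 - h * z2) := by
        rw [← hc1, hh]
        linear_combination (star w1) * p1
      have B1 : 4 * (R2 : ℂ) * (star w2 * b) = (α : ℂ) * ((star h) ^ 2 - (R2 : ℂ) ^ 2) := by
        rw [← hc2, ← hhs]
        linear_combination (star w2) ^ 2 * q2
      have B2 : 2 * (star w2 * b * z2 + R2 * d) = (α : ℂ) * (star h * z1 - R2 * z2) := by
        rw [← hc2, ← hhs]
        linear_combination (star w2) * p2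
      generalize star w1 * a = A at A1 A2 ht1
      generalize star w2 * b = B at B1 B2 ht2
      have A1r := congrArg Complex.re A1
      have A1i := congrArg Complex.im A1
      have A2r := congrArg Complex.re A2
      have A2i := congrArg Complex.im A2
      have B1i := congrArg Complex.im B1
      have B2i := congrArg Complex.im B2
      simp [pow_two] at A1r A1i A2r A2i B1i B2i
      have hA : A.re = -(z1 * c) := by linarith
      rw [hA] at A1r A2r
      have e1 : h.im * (z1 * h.re - z2 * R1) = 0 := by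
        apply (mul_eq_zero.mp (?_ : α * (h.im * (z1 * h.re - z2 * R1)) = 0)).resolve_left hα
        linear_combination (1 / 2 : ℝ) * (2 * R1 * A2i - z1 * A1i)
      have e2 : h.im * (z2 * h.re - z1 * R2) = 0 := by
        apply (mul_eq_zero.mp (?_ : α * (h.im * (z2 * h.re - z1 * R2)) = 0)).resolve_left hα
        linear_combination (1 / 2 : ℝ) * (z2 * B1i - 2 * R2 * B2i)
      have e3 : (R1 ^ 2 - h.re ^ 2 + h.im ^ 2) * (R1 - z1 ^ 2) +
          2 * R1 * z1 * (R1 * z1 - h.re * z2) = 0 := by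
        apply (mul_eq_zero.mp (?_ : α * ((R1 ^ 2 - h.re ^ 2 + h.im ^ 2) * (R1 - z1 ^ 2) +
          2 * R1 * z1 * (R1 * z1 - h.re * z2)) = 0)).resolve_left hα
        linear_combination (R1 - z1 ^ 2) * A1r + 2 * R1 * z1 * A2r
      have hR1ne : R1 ≠ 0 := by
        rw [hR1]; exact fun h0 => hw1 (Complex.normSq_eq_zero.mp h0)
      obtain ⟨hk, hRR⟩ := core hs1 hs2 hgk hR1ne e1 e2 e3
      have hh2 : h ^ 2 = (R1 : ℂ) ^ 2 := by
        have hre : h = (h.re : ℂ) := Complex.ext rfl (by simpa using hk)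
        rw [hre]
        have : h.re ^ 2 = R1 ^ 2 := by
          rw [hk, ← hRR] at hgk
          linarith
        exact_mod_cast this
      have hwh : w1 * h = (R1 : ℂ) * w2 := by
        rw [← hc1, hh]; ring
      have h8 : (R1 : ℂ) ^ 2 * (w1 ^ 2 - w2 ^ 2) = 0 := by
        linear_combination (w1 * h + (R1 : ℂ) * w2) * hwh - w1 ^ 2 * hh2
      have h9 : (R1 : ℂ) ^ 2 ≠ 0 := pow_ne_zero 2 (by exact_mod_cast hR1ne)
      exact hδ ((mul_eq_zero.mp h8).resolve_left h9)
/-! ### The map -/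

section defs

variable {E H M V : Type*} [NormedAddCommGroup E] [NormedSpace ℝ E] [TopologicalSpace H]
  (I : ModelWithCorners ℝ E H) [TopologicalSpace M] [ChartedSpace H M]
  [NormedAddCommGroup V] [NormedSpace ℝ V]

/-- Two affine subspaces are skew: they are disjoint and their direction spaces meet only
in `0`. -/
def Skew (A B : AffineSubspace ℝ V) : Prop :=
  Disjoint (A : Set V) (B : Set V) ∧ Disjoint A.direction B.direction

/-- The affine tangent space `φ(x) + dφ(T_x M)`. -/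
def affineTangent (φ : M → V) (x : M) : AffineSubspace ℝ V :=
  AffineSubspace.mk' (φ x) (LinearMap.range (mfderiv I 𝓘(ℝ, V) φ x).toLinearMap)

/-- `φ` is a totally skew immersion: a `C^∞` map with injective differential at every point, such
that the affine tangent spaces at `x` and `y` are skew whenever `φ(x) ≠ φ(y)`. -/
structure IsTotallySkewImmersion (φ : M → V) : Prop where
  smooth : ContMDiff I 𝓘(ℝ, V) ∞ φ
  immersion : ∀ x, Function.Injective (mfderiv I 𝓘(ℝ, V) φ x)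
  skew : ∀ x y, φ x ≠ φ y → Skew (affineTangent I φ x) (affineTangent I φ y)

end defs

/-- `ℝ³ = ℂ × ℝ`. -/
def P : Eu 3 →L[ℝ] ℂ × ℝ := LinearMap.toContinuousLinearMap
  { toFun := fun p => (⟨p 0, p 1⟩, p 2)
    map_add' := fun p q => by
      refine Prod.ext (Complex.ext ?_ ?_) ?_ <;> simp
    map_smul' := fun a p => by
      refine Prod.ext (Complex.ext ?_ ?_) ?_ <;> simp }

lemma P_apply (p : Eu 3) : P p = (⟨p 0, p 1⟩, p 2) := rfl

/-- The map `(w, z) ↦ (w z, w², w³ z, w⁴)`. -/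
def Phi (p : ℂ × ℝ) : ℂ × ℂ × ℂ × ℂ :=
  (p.1 * p.2, p.1 ^ 2, p.1 ^ 3 * p.2, p.1 ^ 4)

/-- Its derivative. -/
def DPhi (p : ℂ × ℝ) : ℂ × ℝ →L[ℝ] ℂ × ℂ × ℂ × ℂ := LinearMap.toContinuousLinearMap
  { toFun := fun q => (q.1 * p.2 + p.1 * q.2, 2 * p.1 * q.1,
      3 * p.1 ^ 2 * q.1 * p.2 + p.1 ^ 3 * q.2, 4 * p.1 ^ 3 * q.1)
    map_add' := fun q r => by
      refine Prod.ext ?_ (Prod.ext ?_ (Prod.ext ?_ ?_)) <;> simp <;> ring
    map_smul' := fun a q => by
      refine Prod.ext ?_ (Prod.ext ?_ (Prod.ext ?_ ?_)) <;> simp <;> ring }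

lemma DPhi_apply (p q : ℂ × ℝ) : DPhi p q = (q.1 * p.2 + p.1 * q.2, 2 * p.1 * q.1,
      3 * p.1 ^ 2 * q.1 * p.2 + p.1 ^ 3 * q.2, 4 * p.1 ^ 3 * q.1) := rfl

lemma contDiff_Phi : ContDiff ℝ ∞ Phi := by
  unfold Phi
  have h1 : ContDiff ℝ ∞ (fun p : ℂ × ℝ => p.1) := contDiff_fst
  have h2 : ContDiff ℝ ∞ (fun p : ℂ × ℝ => p.2) := contDiff_snd
  have h4 : ContDiff ℝ ∞ (fun p : ℂ × ℝ => (p.2 : ℂ)) :=
    Complex.ofRealCLM.contDiff.comp h2
  fun_prop

lemma hasFDerivAt_Phi (p : ℂ × ℝ) : HasFDerivAt Phi (DPhi p) p := by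
  have h1 : HasFDerivAt (fun p : ℂ × ℝ => p.1) (ContinuousLinearMap.fst ℝ ℂ ℝ) p :=
    hasFDerivAt_fst
  have h2 : HasFDerivAt (fun p : ℂ × ℝ => p.2) (ContinuousLinearMap.snd ℝ ℂ ℝ) p :=
    hasFDerivAt_snd
  have h4 : HasFDerivAt (fun p : ℂ × ℝ => (p.2 : ℂ))
      (Complex.ofRealCLM.comp (ContinuousLinearMap.snd ℝ ℂ ℝ)) p :=
    Complex.ofRealCLM.hasFDerivAt.comp p h2
  have h5 := (h1.mul h4).prodMk ((h1.pow 2).prodMk (((h1.pow 3).mul h4).prodMk (h1.pow 4)))
  refine h5.congr_fderiv ?_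
  ext q <;> simp [DPhi_apply]
  all_goals ring

/-- A linear identification of `ℂ⁴` with `ℝ⁸`. -/
def L : (ℂ × ℂ × ℂ × ℂ) ≃L[ℝ] Eu 8 := ContinuousLinearEquiv.ofFinrankEq (by
  simp [Complex.finrank_real_complex])

/-- The map `ℝ³ → ℝ⁸`. -/
def Psi (p : Eu 3) : Eu 8 := L (Phi (P p))

lemma contDiff_Psi : ContDiff ℝ ∞ Psi :=
  L.contDiff.comp (contDiff_Phi.comp P.contDiff)

/-- The derivative of `Psi`. -/
def DPsi (p : Eu 3) : Eu 3 →L[ℝ] Eu 8 :=
  (L : (ℂ × ℂ × ℂ × ℂ) →L[ℝ] Eu 8).comp ((DPhi (P p)).comp P)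

lemma DPsi_apply (p a : Eu 3) : DPsi p a = L (DPhi (P p) (P a)) := rfl

lemma hasFDerivAt_Psi (p : Eu 3) : HasFDerivAt Psi (DPsi p) p :=
  (L : (ℂ × ℂ × ℂ × ℂ) →L[ℝ] Eu 8).hasFDerivAt.comp p
    ((hasFDerivAt_Phi (P p)).comp p P.hasFDerivAt)

/-- The unit sphere of `ℝ³`. -/
abbrev S2 := Metric.sphere (0 : Eu 3) 1

section sphere

theorem fact3 : Fact (finrank ℝ (Eu 3) = 2 + 1) := ⟨by simp⟩

attribute [local instance] fact3

/-- The even map `S² → ℝ⁸`. -/
def phi (x : S2) : Eu 8 := Psi (x : Eu 3)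

/-- The tangent vector of `ℝ³` corresponding to `v ∈ T_x S²`. -/
def inc (x : S2) (v : TangentSpace (𝓡 2) x) : Eu 3 :=
  mfderiv (𝓡 2) 𝓘(ℝ, Eu 3) (fun x : S2 => (x : Eu 3)) x v

lemma inc_orth (x : S2) (v : TangentSpace (𝓡 2) x) :
    (x : Eu 3) 0 * inc x v 0 + (x : Eu 3) 1 * inc x v 1 + (x : Eu 3) 2 * inc x v 2 = 0 := by
  have h : inc x v ∈ (Submodule.span ℝ {(x : Eu 3)})ᗮ := by
    rw [← range_mfderiv_coe_sphere (n := 2) x]
    exact ⟨v, rfl⟩
  rw [Submodule.mem_orthogonal_singleton_iff_inner_right] at h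
  rw [PiLp.inner_apply, Fin.sum_univ_three] at h
  simp at h
  linarith

lemma inc_inj (x : S2) (v : TangentSpace (𝓡 2) x) (h : inc x v = 0) : v = 0 :=
  (injective_iff_map_eq_zero _).mp (injective_mvfderiv_subtypeVal_sphere x) v h

lemma norm_coord (x : S2) :
    Complex.normSq (⟨(x : Eu 3) 0, (x : Eu 3) 1⟩ : ℂ) + (x : Eu 3) 2 ^ 2 = 1 := by
  have hx : ‖(x : Eu 3)‖ = 1 := by simp
  rw [EuclideanSpace.norm_eq, Real.sqrt_eq_one] at hx
  simp only [Fin.sum_univ_three, Real.norm_eq_abs, sq_abs] at hx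
  rw [Complex.normSq_mk]
  linarith

lemma hasMFDerivAt_phi (x : S2) : HasMFDerivAt (𝓡 2) 𝓘(ℝ, Eu 8) phi x
    ((DPsi (x : Eu 3)).comp (mfderiv (𝓡 2) 𝓘(ℝ, Eu 3) (fun x : S2 => (x : Eu 3)) x)) :=
  (hasFDerivAt_Psi (x : Eu 3)).hasMFDerivAt.comp x
    ((contMDiff_coe_sphere (m := 1)).mdifferentiable (by simp) x).hasMFDerivAt

/-- The value `dφ_x(v)` as a vector of `ℝ⁸`. -/
def tan (x : S2) (v : TangentSpace (𝓡 2) x) : Eu 8 := mfderiv (𝓡 2) 𝓘(ℝ, Eu 8) phi x v

lemma tan_eq (x : S2) (v : TangentSpace (𝓡 2) x) : tan x v = DPsi (x : Eu 3) (inc x v) := by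
  unfold tan
  rw [(hasMFDerivAt_phi x).mfderiv]
  rfl

lemma tang (x : S2) (v : TangentSpace (𝓡 2) x) :
    (star (⟨(x : Eu 3) 0, (x : Eu 3) 1⟩ : ℂ) * (⟨inc x v 0, inc x v 1⟩ : ℂ)).re +
      (x : Eu 3) 2 * inc x v 2 = 0 := by
  have := inc_orth x v
  simp
  linarith

lemma phi_eq_iff (x y : S2) : phi x = phi y ↔ x = y ∨ x = -y := by
  constructor
  · intro h
    have h1 : Phi (P x) = Phi (P y) := L.injective h
    simp only [Phi, P_apply, Prod.mk.injEq] at h1
    obtain ⟨h1, h2, -, -⟩ := h1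
    have hx := norm_coord x
    have hy := norm_coord y
    have key : (⟨(x : Eu 3) 0, (x : Eu 3) 1⟩ : ℂ) = ⟨(y : Eu 3) 0, (y : Eu 3) 1⟩ ∧
        (x : Eu 3) 2 = (y : Eu 3) 2 ∨
        (⟨(x : Eu 3) 0, (x : Eu 3) 1⟩ : ℂ) = -⟨(y : Eu 3) 0, (y : Eu 3) 1⟩ ∧
        (x : Eu 3) 2 = -(y : Eu 3) 2 := by
      generalize (⟨(x : Eu 3) 0, (x : Eu 3) 1⟩ : ℂ) = w1 at *
      generalize (⟨(y : Eu 3) 0, (y : Eu 3) 1⟩ : ℂ) = w2 at *
      generalize (x : Eu 3) 2 = z1 at *
      generalize (y : Eu 3) 2 = z2 at *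
      by_cases hw : w1 = 0
      · subst hw
        have hw2 : w2 = 0 := by
          have : w2 ^ 2 = 0 := by rw [← h2]; simp
          simpa using this
        subst hw2
        have : z1 ^ 2 = z2 ^ 2 := by simpa using hx.trans hy.symm
        rcases sq_eq_sq_iff_eq_or_eq_neg.mp this with h | h
        · left; exact ⟨rfl, h⟩
        · right; exact ⟨by simp, h⟩
      · rcases sq_eq_sq_iff_eq_or_eq_neg.mp h2 with h | h
        · left
          refine ⟨h, ?_⟩
          rw [← h] at h1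
          exact_mod_cast mul_left_cancel₀ hw h1
        · right
          refine ⟨h, ?_⟩
          have hw2 : w2 = -w1 := by rw [h]; simp
          rw [hw2] at h1
          have h3 : w1 * (z1 : ℂ) = w1 * ((-z2 : ℝ) : ℂ) := by
            rw [h1]; push_cast; ring
          exact_mod_cast mul_left_cancel₀ hw h3
    rcases key with ⟨ha, hb⟩ | ⟨ha, hb⟩
    · left
      rw [Complex.ext_iff] at ha
      apply Subtype.ext
      ext i
      fin_cases i
      · simpa using ha.1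
      · simpa using ha.2
      · simpa using hb
    · right
      rw [Complex.ext_iff] at ha
      apply Subtype.ext
      ext i
      fin_cases i
      · simpa using ha.1
      · simpa using ha.2
      · simpa using hb
  · rintro (rfl | rfl)
    · rfl
    · unfold phi Psi
      congr 1
      simp only [Phi, P_apply]
      have e : (⟨((-y : S2) : Eu 3) 0, ((-y : S2) : Eu 3) 1⟩ : ℂ) =
          -⟨(y : Eu 3) 0, (y : Eu 3) 1⟩ := by
        apply Complex.ext <;> simp
      have e2 : ((-y : S2) : Eu 3) 2 = -((y : Eu 3) 2) := by simp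
      rw [e, e2]
      refine Prod.ext ?_ (Prod.ext ?_ (Prod.ext ?_ ?_)) <;> simp <;> ring

lemma relation (x y : S2) (hne : phi x ≠ phi y) (α : ℝ) (v : TangentSpace (𝓡 2) x)
    (w : TangentSpace (𝓡 2) y) (h : α • (phi x - phi y) + (tan x v - tan y w) = 0) :
    α = 0 ∧ v = 0 ∧ w = 0 := by
  rw [tan_eq, tan_eq, DPsi_apply, DPsi_apply] at h
  have hr' : L (α • (Phi (P x) - Phi (P y)) + (DPhi (P x) (P (inc x v)) -
      DPhi (P y) (P (inc y w)))) = 0 := by
    rw [map_add, map_smul, map_sub, map_sub]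
    exact h
  have h1 := (map_eq_zero_iff L L.injective).mp hr'
  simp only [DPhi_apply, Phi, P_apply] at h1
  have g1 := congrArg (fun q : ℂ × ℂ × ℂ × ℂ => q.1) h1
  have g2 := congrArg (fun q : ℂ × ℂ × ℂ × ℂ => q.2.1) h1
  have g3 := congrArg (fun q : ℂ × ℂ × ℂ × ℂ => q.2.2.1) h1
  have g4 := congrArg (fun q : ℂ × ℂ × ℂ × ℂ => q.2.2.2) h1
  simp only [Prod.fst_add, Prod.snd_add, Prod.smul_fst, Prod.smul_snd, Prod.fst_sub,
    Prod.snd_sub, Prod.fst_zero, Prod.snd_zero, Complex.real_smul] at g1 g2 g3 g4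
  have hzero : ∀ (z : S2) (u : TangentSpace (𝓡 2) z), (⟨inc z u 0, inc z u 1⟩ : ℂ) = 0 →
      inc z u 2 = 0 → u = 0 := by
    intro z u h0 h2
    rw [Complex.ext_iff] at h0
    apply inc_inj
    ext i
    fin_cases i
    · simpa using h0.1
    · simpa using h0.2
    · simpa using h2
  have := pairKey (norm_coord x) (norm_coord y) (tang x v) (tang y w) g1 g2 g3 g4 (by
    rintro ⟨ha, hb⟩
    apply hne
    unfold phi Psi
    congr 1
    simp only [Phi, P_apply]
    refine Prod.ext hb (Prod.ext ha (Prod.ext ?_ ?_))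
    · linear_combination (⟨(x : Eu 3) 0, (x : Eu 3) 1⟩ : ℂ) ^ 2 * hb +
        (⟨(y : Eu 3) 0, (y : Eu 3) 1⟩ : ℂ) * ((y : Eu 3) 2 : ℂ) * ha
    · linear_combination ((⟨(x : Eu 3) 0, (x : Eu 3) 1⟩ : ℂ) ^ 2 +
        (⟨(y : Eu 3) 0, (y : Eu 3) 1⟩ : ℂ) ^ 2) * ha)
  exact ⟨this.1, hzero x v this.2.1.1 this.2.1.2, hzero y w this.2.2.1 this.2.2.2⟩

end sphere

/-- There is an even totally skew immersion of the sphere `S²` into `ℝ⁸` whose only double points
are the pairs of antipodal points, that is, a totally skew embedding of `ℝP² = S²/±1` into `ℝ⁸`. -/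
theorem result : ∃ φ : Metric.sphere (0 : Eu 3) 1 → Eu 8,
    IsTotallySkewImmersion (𝓡 2) φ ∧ ∀ x y, φ x = φ y ↔ x = y ∨ x = -y := by
  have := fact3
  refine ⟨phi, ⟨?_, ?_, ?_⟩, phi_eq_iff⟩
  · exact contDiff_Psi.contMDiff.comp contMDiff_coe_sphere
  · intro x
    rw [injective_iff_map_eq_zero]
    intro v hv
    have hv' : tan x v = 0 := hv
    rw [tan_eq, DPsi_apply] at hv'
    have h1 : DPhi (P x) (P (inc x v)) = 0 := by simpa using hv'
    simp only [DPhi_apply, P_apply, Prod.mk_eq_zero] at h1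
    obtain ⟨h1, h2, -, -⟩ := h1
    have := imm (norm_coord x) (tang x v) h1 (by
      have : 2 * ((⟨(x : Eu 3) 0, (x : Eu 3) 1⟩ : ℂ) * ⟨inc x v 0, inc x v 1⟩) = 0 := by
        rw [← mul_assoc]; exact h2
      simpa using this)
    obtain ⟨ha, hb⟩ := this
    rw [Complex.ext_iff] at ha
    apply inc_inj
    ext i
    fin_cases i
    · simpa using ha.1
    · simpa using ha.2
    · simpa using hb
  · intro x y hxy
    constructor
    · rw [Set.disjoint_left]
      intro p hp hq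
      rw [SetLike.mem_coe, affineTangent, AffineSubspace.mem_mk'] at hp hq
      obtain ⟨v, hv⟩ := hp
      obtain ⟨w, hw⟩ := hq
      have hv' : tan x v = p - phi x := hv
      have hw' : tan y w = p - phi y := hw
      have := relation x y hxy 1 v w (by rw [hv', hw', one_smul]; abel)
      exact one_ne_zero this.1
    · rw [affineTangent, affineTangent, AffineSubspace.direction_mk',
        AffineSubspace.direction_mk', Submodule.disjoint_def]
      intro p hp hq
      obtain ⟨v, hv⟩ := hp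
      obtain ⟨w, hw⟩ := hq
      have hv' : tan x v = p := hv
      have hw' : tan y w = p := hw
      have := relation x y hxy 0 v w (by rw [hv', hw', zero_smul]; abel)
      rw [← hv', this.2.1]
      exact map_zero (mfderiv (𝓡 2) 𝓘(ℝ, Eu 8) phi x)

end

end Pool.Agent.Results.MP_794fdb_gt.ProjectivePlane
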